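import Pool.Agent.Lib.MP_5db4ad_nt.Limit
import Pool.Agent.Lib.MP_5db4ad_nt.Chunk0
import Pool.Agent.Lib.MP_5db4ad_nt.Chunk1
import Pool.Agent.Lib.MP_5db4ad_nt.Chunk2
import Pool.Agent.Lib.MP_5db4ad_nt.Chunk3

/-!
The upper limit of `|S(x)| / x`, where `S(x)` is the sum of `(-2) ^ Ω(n)` over `1 ≤ n ≤ x`,
is at least `0.971`.
-/

namespace Pool.Agent.Results.MP_5db4ad_nt.LowerBound

open Pool.Agent.Lib.MP_5db4ad_nt Finset Filter

theorem result : ENNReal.ofReal 0.971 ≤ Filter.limsup (fun x : ℝ => ENNReal.ofReal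
    (|∑ n ∈ Finset.Icc 1 ⌊x⌋₊, (-2 : ℝ) ^ ArithmeticFunction.cardFactors n| / x)) Filter.atTop := by
  by_contra hc
  obtain ⟨t0, ht0⟩ := eventually_atTop.1 (eventually_lt_of_limsup_lt (not_le.1 hc))
  set C : ℝ := ∑ n ∈ Icc 1 ⌊t0⌋₊, |(-2 : ℝ) ^ ArithmeticFunction.cardFactors n| with hC
  have C0 : 0 ≤ C := by positivity
  have h : ∀ t, 1 ≤ t → |SS t| ≤ 0.971 * t + C := fun t ht => by
    rcases le_total t0 t with h1 | h1
    · have := (ENNReal.ofReal_lt_ofReal_iff (by norm_num)).1 (ht0 t h1)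
      rw [div_lt_iff₀ (by linarith)] at this
      unfold SS
      linarith
    · have : |SS t| ≤ C := (Finset.abs_sum_le_sum_abs _ _).trans
        (Finset.sum_le_sum_of_subset_of_nonneg (Icc_subset_Icc_right (Nat.floor_mono h1))
          fun _ _ _ => abs_nonneg _)
      linarith
  set ω : ℂ := ⟨-105091041 / 305091041, 286420000 / 305091041⟩ with hω
  have n1 : ‖ω‖ = 1 := by
    rw [Complex.norm_eq_sqrt_sq_add_sq, hω]
    norm_num
  have n2 : ‖cvt 1 288793777141333126972 312465740604064263953 - ω‖ ≤ 1 / 2 ^ 46 := by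
    refine (norm_le_of_parts (r := 1 / 2 ^ 47) ?_ ?_).trans (by norm_num)
    · rw [abs_le]
      norm_num [cvt, hω]
    · rw [abs_le]
      norm_num [cvt, hω]
  have spec := fun (r : ℕ) (tgt : ℤ) (hr : r ≤ 8) => chunk_spec (N := 3401) (eta := 443) (r := r)
    (e := 2) (l := 8) (tgt := tgt) n1 n2 (by norm_num) (by norm_num) hr (by norm_num) le_rfl
  obtain ⟨y0, s0⟩ := spec 0 _ (by norm_num) chunk0
  obtain ⟨y1, s1⟩ := spec 1 _ (by norm_num) chunk1
  obtain ⟨y2, s2⟩ := spec 2 _ (by norm_num) chunk2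
  obtain ⟨y3, s3⟩ := spec 3 _ (by norm_num) chunk3
  have key := limit_bound C0 h n1 (M := 8 * 2 ^ 8) (by norm_num [cor30]) (by norm_num)
    fun m hm hm' => by
      have a1 := Nat.odd_iff.1 hm'
      have a2 : m / 8 < 2 ^ 8 := by omega
      have a3 : m = fr 0 2 (m / 8) ∨ m = fr 1 2 (m / 8) ∨ m = fr 2 2 (m / 8) ∨
          m = fr 3 2 (m / 8) := by
        simp only [fr]
        omega
      rcases a3 with e | e | e | e <;> rw [e]
      exacts [y0 _ a2, y1 _ a2, y2 _ a2, y3 _ a2]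
  rw [sum_odd, show 8 * 2 ^ 8 = 2 ^ (2 + 8 + 1) by norm_num] at key
  obtain ⟨l1, l2⟩ := log_two_bounds
  rw [div_mul_eq_mul_div, div_le_iff₀ (by linarith)] at key
  push_cast at s0 s1 s2 s3
  linarith

end Pool.Agent.Results.MP_5db4ad_nt.LowerBound
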