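import Pool.Agent.Lib.MP_5db4ad_nt.Variants.ExactFormula
import Pool.Agent.Results.MP_5db4ad_nt.LowerBound
import Pool.Agent.Lib.MP_5db4ad_nt.Variants.UpperBound

/-!
The value of the upper limit of `|S(x)| / x`, where `S(x)` is the sum of `(-2) ^ Ω(n)` over
`1 ≤ n ≤ x`: it is a real number given by an explicit supremum, and it lies in `[0.971, 0.999]`.
-/

namespace Pool.Agent.Results.MP_5db4ad_nt.Answer

/-- the poles of the Dirichlet series on the line of real part one, upper half -/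
noncomputable def s (k : ℕ) : ℂ := 1 + ((2 * k + 1) * Real.pi / Real.log 2 : ℝ) * Complex.I

/-- the residue of `F(z) / z` at `s k`, where `F` is the Dirichlet series of `(-2) ^ Ω` -/
noncomputable def c (k : ℕ) : ℂ :=
  4 / (9 * (Real.log 2 : ℝ) * s k * riemannZeta (s k) ^ 2 *
    ∏' p : {p : ℕ // p.Prime ∧ p ≠ 2},
      (1 - 3 * (p : ℂ) ^ (-(2 * s k)) + 2 * (p : ℂ) ^ (-(3 * s k))))

theorem result : ∃ α : ℝ,
    Filter.limsup (fun x : ℝ => ENNReal.ofReal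
      (|∑ n ∈ Finset.Icc 1 ⌊x⌋₊, (-2 : ℝ) ^ ArithmeticFunction.cardFactors n| / x)) Filter.atTop =
      ENNReal.ofReal α ∧
    IsLUB {y : ℝ | ∃ (N : ℕ) (u : ℝ), y = |∑ k ∈ Finset.range N,
      (1 - (2 * k + 1) / (2 * N) : ℝ) * (2 * (c k * Complex.exp (u * (s k - 1))).re)|} α ∧
    0.971 ≤ α ∧ α ≤ 0.999 := by
  have hE := Pool.Agent.Lib.MP_5db4ad_nt.Variants.ExactFormula.result
  have hL := LowerBound.result
  have hU := Pool.Agent.Lib.MP_5db4ad_nt.Variants.UpperBound.result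
  generalize Filter.limsup (fun x : ℝ => ENNReal.ofReal
      (|∑ n ∈ Finset.Icc 1 ⌊x⌋₊, (-2 : ℝ) ^ ArithmeticFunction.cardFactors n| / x)) Filter.atTop = A
    at hE hL hU ⊢
  have hA : A ≠ ⊤ := ne_top_of_le_ne_top ENNReal.ofReal_ne_top hU
  have hB : ∀ b : ℝ, 0 ≤ b → (A ≤ ENNReal.ofReal b ↔ A.toReal ≤ b) := fun b hb =>
    (ENNReal.le_ofReal_iff_toReal_le hA hb)
  refine ⟨A.toReal, (ENNReal.ofReal_toReal hA).symm, ⟨?_, ?_⟩,
    (ENNReal.ofReal_le_iff_le_toReal hA).1 hL, (hB _ (by norm_num)).1 hU⟩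
  · rintro y ⟨N, u, rfl⟩
    refine (ENNReal.ofReal_le_iff_le_toReal hA).1 ?_
    rw [hE]
    exact le_iSup₂_of_le N u le_rfl
  · intro b hb
    have h0 : 0 ≤ b := (abs_nonneg _).trans (hb ⟨0, 0, rfl⟩)
    refine (hB b h0).1 ?_
    rw [hE]
    exact iSup₂_le fun N u => ENNReal.ofReal_le_ofReal (hb ⟨N, u, rfl⟩)

end Pool.Agent.Results.MP_5db4ad_nt.Answer
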