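import Pool.Agent.Lib.MP_5db4ad_nt.Variants.UpperBound
import Pool.Agent.Lib.MP_5db4ad_nt.E26Rate

/-!
An explicit upper bound for the sum of `(-2) ^ Ω(n)` over `1 ≤ n ≤ x`, valid from `exp (10 ^ 7)` on.
-/

namespace Pool.Agent.Results.MP_5db4ad_nt.EffectiveBound

open Pool.Agent.Lib.MP_5db4ad_nt

theorem result (x : ℝ) (hx : Real.exp (10 ^ 7) ≤ x) :
    |∑ n ∈ Finset.Icc 1 ⌊x⌋₊, (-2 : ℝ) ^ ArithmeticFunction.cardFactors n| ≤
      (0.999 + 18 / Real.log x) * x :=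
  (div_le_iff₀ ((Real.exp_pos _).trans_le hx)).1
    (E26.up (by norm_num) Variants.UpperBound.result hx)

end Pool.Agent.Results.MP_5db4ad_nt.EffectiveBound
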