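import Pool.Agent.Lib.MP_5db4ad_nt.Variants.ExactFormula
import Pool.Agent.Lib.MP_5db4ad_nt.E26Rate

/-!
The supremum of `|S(x)| / x` over `[X, 2 X]`, where `S(x)` is the sum of `(-2) ^ Ω(n)` over
`1 ≤ n ≤ x`, is within `18 / log X` of the supremum of the Fejér means of an explicit series.
-/

namespace Pool.Agent.Results.MP_5db4ad_nt.EffectiveFormula

open Pool.Agent.Lib.MP_5db4ad_nt

/-- the poles of the Dirichlet series on the line of real part one, upper half -/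
noncomputable def s (k : ℕ) : ℂ := 1 + ((2 * k + 1) * Real.pi / Real.log 2 : ℝ) * Complex.I

/-- the residue of `F(z) / z` at `s k`, where `F` is the Dirichlet series of `(-2) ^ Ω` -/
noncomputable def c (k : ℕ) : ℂ :=
  4 / (9 * (Real.log 2 : ℝ) * s k * riemannZeta (s k) ^ 2 *
    ∏' p : {p : ℕ // p.Prime ∧ p ≠ 2},
      (1 - 3 * (p : ℂ) ^ (-(2 * s k)) + 2 * (p : ℂ) ^ (-(3 * s k))))

theorem result : ∃ β : ℝ,
    IsLUB {y : ℝ | ∃ (N : ℕ) (u : ℝ), y = |∑ k ∈ Finset.range N,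
      (1 - (2 * k + 1) / (2 * N) : ℝ) * (2 * (c k * Complex.exp (u * (s k - 1))).re)|} β ∧
    ∀ X : ℝ, Real.exp (10 ^ 7) ≤ X →
      (∀ x ∈ Set.Icc X (2 * X),
        |∑ n ∈ Finset.Icc 1 ⌊x⌋₊, (-2 : ℝ) ^ ArithmeticFunction.cardFactors n| / x ≤
          β + 18 / Real.log X) ∧
      ∃ x ∈ Set.Icc X (2 * X), β - 18 / Real.log X ≤
        |∑ n ∈ Finset.Icc 1 ⌊x⌋₊, (-2 : ℝ) ^ ArithmeticFunction.cardFactors n| / x := by
  have hE := Variants.ExactFormula.result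
  have hA := E26.fin
  have hU := fun b hb h => @E26.up b hb h
  have hD := fun b h => @E26.down b h
  unfold S2.SS at hA hU hD
  generalize Filter.limsup (fun x : ℝ => ENNReal.ofReal
      (|∑ n ∈ Finset.Icc 1 ⌊x⌋₊, (-2 : ℝ) ^ ArithmeticFunction.cardFactors n| / x)) Filter.atTop = A
    at hE hA hU hD
  have e := ENNReal.ofReal_toReal hA
  refine ⟨A.toReal, ⟨?_, ?_⟩, fun X hX => ⟨fun x hx => ?_, hD _ e.le hX⟩⟩
  · rintro y ⟨N, u, rfl⟩
    refine (ENNReal.ofReal_le_iff_le_toReal hA).1 ?_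
    rw [hE]
    exact le_iSup₂_of_le N u le_rfl
  · intro b hb
    have h0 : 0 ≤ b := (abs_nonneg _).trans (hb ⟨0, 0, rfl⟩)
    refine (ENNReal.le_ofReal_iff_toReal_le hA h0).1 ?_
    rw [hE]
    exact iSup₂_le fun N u => ENNReal.ofReal_le_ofReal (hb ⟨N, u, rfl⟩)
  · obtain ⟨X1, hl⟩ := E26.thr hX
    refine (hU _ ENNReal.toReal_nonneg e.ge (hX.trans hx.1)).trans (add_le_add le_rfl ?_)
    exact div_le_div_of_nonneg_left (by norm_num) (by linarith)
      (Real.log_le_log (by linarith) hx.1)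

end Pool.Agent.Results.MP_5db4ad_nt.EffectiveFormula
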